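import Mathlib
import Pool.Agent.H.MP_3d7de8_lc.Main
import Pool.Agent.Lib.helper21.Separ

set_option autoImplicit false

namespace Pool.Agent.Results.MP_00fd70_lc.Regular

open Pool.Agent.H.MP_3d7de8_lc FirstOrder FirstOrder.Language

universe u

/-- Two algebras realise the same complete types of finite tuples. -/
def Isotypic (K A B : Type u) [Field K] [NonUnitalRing A] [Module K A] [NonUnitalRing B]
    [Module K B] : Prop :=
  ∀ n : ℕ,
    (∀ a : Fin n → A, ∃ b : Fin n → B,
      ∀ φ : (algLang K).Formula (Fin n), φ.Realize a ↔ φ.Realize b) ∧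
    (∀ b : Fin n → B, ∃ a : Fin n → A,
      ∀ φ : (algLang K).Formula (Fin n), φ.Realize a ↔ φ.Realize b)

theorem hom_real {K A B : Type u} [Field K] [NonUnitalRing A] [Module K A] [NonUnitalRing B]
    [Module K B] {α : Type} (σ : A →ₙₐ[K] B) (v : α → A) (t : (algLang K).Term α) :
    σ (t.realize v) = t.realize (fun i => σ (v i)) := by
  induction t with
  | var i => rfl
  | func f ts ih =>
    cases f with
    | zero => exact map_zero σ
    | neg => exact (map_neg σ _).trans (congrArg Neg.neg (ih 0))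
    | smul c => exact (map_smul σ c _).trans (congrArg (c • ·) (ih 0))
    | add => exact (map_add σ _ _).trans (congrArg₂ (· + ·) (ih 0) (ih 1))
    | mul => exact (map_mul σ _ _).trans (congrArg₂ (· * ·) (ih 0) (ih 1))

theorem result (K : Type u) [Field K] (n r : ℕ) (hn : 2 ≤ n) (A : Type u) [NonUnitalRing A]
    [Module K A] [IsScalarTower K A A] [SMulCommClass K A A] (e : Fin r → A)
    (hA : IsFree K (Nilpotent n) A e) (B : Type u) [NonUnitalRing B]
    [Module K B] [IsScalarTower K B B] [SMulCommClass K B B] (hB : Nilpotent n B)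
    (h : Isotypic K A B) : ∃ f : A →ₙₐ[K] B, Function.Bijective f := by
  have hH : LogHomogeneous K A := by
    by_cases h3 : 3 ≤ n
    · refine free_homog _ e hA (fun S x hx => Subtype.ext (hA.1 _ (hx.coe S))) (N := n - 1)
        (fun x l hl => hA.1 _ ?_) (fun x hx => (T_pow hx).2 h3)
      have := pow_foldl l (Pow.one x)
      rwa [hl, show 1 + (n - 1) = n by omega] at this
    · refine lin_case fun x y => hA.1 _ ?_
      obtain rfl : n = 2 := by omega
      exact (Pow.one x).mul (.one y)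
  have hterm : ∀ u : A, ∃ t : (algLang K).Term (Fin r), t.realize e = u := by
    let S : NonUnitalSubalgebra K A :=
      { carrier := {u | ∃ t : (algLang K).Term (Fin r), t.realize e = u}
        add_mem' := by rintro _ _ ⟨s, rfl⟩ ⟨t, rfl⟩; exact ⟨ta s t, rfl⟩
        zero_mem' := ⟨tz, rfl⟩
        mul_mem' := by rintro _ _ ⟨s, rfl⟩ ⟨t, rfl⟩; exact ⟨tm s t, rfl⟩
        smul_mem' := by rintro c _ ⟨t, rfl⟩; exact ⟨ts c t, rfl⟩ }
    intro x
    obtain ⟨g, hg, -⟩ := hA.2 S (fun x hx => Subtype.ext (hA.1 _ (hx.coe S)))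
      (fun i => ⟨e i, Term.var i, rfl⟩)
    have := (hA.2 A hA.1 e).unique
      (y₁ := (NonUnitalSubalgebraClass.subtype S).comp g) (y₂ := NonUnitalAlgHom.id K A)
      (fun i => by simp [hg]) (fun i => rfl)
    have h2 : ((g x : S) : A) = x := DFunLike.congr_fun this x
    exact h2 ▸ (g x).2
  obtain ⟨b, hb⟩ := (h r).1 e
  obtain ⟨f, hf2, -⟩ := hA.2 B hB b
  refine ⟨f, Pool.Agent.Lib.helper21.Separ.separ e (fun a ha w => ?_) b hb
    (h (r + 1)).2 f (fun t => ?_)⟩
  · obtain ⟨σ, hσ1, hσ⟩ := hH r e a ha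
    obtain ⟨w, rfl⟩ := hσ1.2 w
    obtain ⟨t, rfl⟩ := hterm w
    exact ⟨t, by rw [hom_real]; simp only [hσ]⟩
  · rw [hom_real]; simp only [hf2]

end Pool.Agent.Results.MP_00fd70_lc.Regular
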